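import Pool.Agent.W477.GM.Stms

set_option maxHeartbeats 1000000

namespace Pool.Agent.W477.GM.Dist61

open Pool.Agent.W477.GM

theorem decide_all {X : Type 1} [PartialOrder X] (κ : Cardinal.{0}) (I : Type)
    (hI : Cardinal.mk I < κ)
    (hlb : ∀ (K : Type) (f : K → X), Cardinal.mk K < κ →
      (∀ i k, f i ≤ f k ∨ f k ≤ f i) → ∃ x, ∀ i, x ≤ f i)
    (A : I → X → Prop) (hA : ∀ i x y, y ≤ x → A i x → A i y) :
    ∃ x, ∀ i, A i x ∨ ∀ y, y ≤ x → ¬ A i y := by
  classical
  obtain ⟨x0, -⟩ := hlb PEmpty (fun i => i.elim) (by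
    simpa using lt_of_le_of_lt (zero_le (a := Cardinal.mk I)) hI) (fun i => i.elim)
  have hlb' : ∀ (K : Type) (f : K → X), ∃ x, Cardinal.mk K < κ →
      (∀ i k, f i ≤ f k ∨ f k ≤ f i) → ∀ i, x ≤ f i := by
    intro K f
    by_cases h : Cardinal.mk K < κ ∧ (∀ i k, f i ≤ f k ∨ f k ≤ f i)
    · obtain ⟨x, hx⟩ := hlb K f h.1 h.2
      exact ⟨x, fun _ _ => hx⟩
    · exact ⟨x0, fun h1 h2 => absurd ⟨h1, h2⟩ h⟩
  choose lb hlb2 using hlb'
  have hdec : ∀ (i : I) (x : X), ∃ y, y ≤ x ∧ (A i y ∨ ∀ z, z ≤ y → ¬ A i z) := by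
    intro i x
    by_cases h : ∃ y, y ≤ x ∧ A i y
    · obtain ⟨y, h1, h2⟩ := h
      exact ⟨y, h1, Or.inl h2⟩
    · exact ⟨x, le_rfl, Or.inr fun z hz hAz => h ⟨z, hz, hAz⟩⟩
  choose dc hdc1 hdc2 using hdec
  let r : I → I → Prop := WellOrderingRel
  have hwf : WellFounded r := (IsWellFounded.wf : WellFounded (WellOrderingRel (α := I)))
  let t : I → X := hwf.fix (fun i rec => dc i (lb {k // r k i} (fun k => rec k.1 k.2)))
  have ht : ∀ i, t i = dc i (lb {k // r k i} (fun k => t k.1)) := by
    intro i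
    exact hwf.fix_eq _ i
  have htri : ∀ i k, r i k ∨ i = k ∨ r k i := fun i k =>
    trichotomous_of (WellOrderingRel (α := I)) i k
  have hdecr : ∀ i, ∀ k, r k i → t i ≤ t k := by
    intro i
    induction i using hwf.induction with
    | _ i ih =>
      intro k hk
      have hch : ∀ (a c : {k // r k i}), t a.1 ≤ t c.1 ∨ t c.1 ≤ t a.1 := by
        intro a c
        rcases htri a.1 c.1 with h | h | h
        · right; exact ih c.1 c.2 a.1 h
        · left; rw [h]
        · left; exact ih a.1 a.2 c.1 h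
      have h1 := hlb2 {k // r k i} (fun k => t k.1)
        (lt_of_le_of_lt (Cardinal.mk_subtype_le _) hI) hch ⟨k, hk⟩
      rw [ht i]
      exact (hdc1 _ _).trans h1
  obtain ⟨x, hx⟩ := hlb I t hI (by
    intro i k
    rcases htri i k with h | h | h
    · right; exact hdecr k i h
    · left; rw [h]
    · left; exact hdecr i k h)
  refine ⟨x, fun i => ?_⟩
  have h2 := hdc2 i (lb {k // r k i} (fun k => t k.1))
  rw [← ht i] at h2
  rcases h2 with h2 | h2
  · exact Or.inl (hA i _ _ (hx i) h2)
  · exact Or.inr fun y hy => h2 y (hy.trans (hx i))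

theorem dist_holds : P_DIST := by
  classical
  intro hk C _ _ L b e I A t0 hI hs0 hL hA
  let T : J → Prop := fun j => b ≤ j.1 ∧ (j.1, j.2.1) ∈ e
  have hT : {j : J | T j}.Finite := by
    have h1 : {j : J | T j} ⊆ (fun q : (Ordinal.{0} × ℕ) × Bool => ((q.1.1, q.1.2, q.2) : J)) ''
        ((e : Set (Ordinal.{0} × ℕ)) ×ˢ (Set.univ : Set Bool)) := by
      rintro ⟨β, n, s⟩ hj
      exact ⟨((β, n), s), ⟨hj.2, Set.mem_univ _⟩, rfl⟩
    exact ((e.finite_toSet.prod Set.finite_univ).image _).subset h1
  let X : Type 1 := {t : Cn C L // t ≤ t0 ∧ t.c = t0.c ∧ ∀ j, ¬ T j → t.len j = 0}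
  have key : ∃ x : X, ∀ i, A i x.1 ∨ ∀ y : X, y ≤ x → ¬ A i y.1 := by
    refine decide_all (X := X) (kap b) I hI ?_ (fun i x => A i x.1)
      (fun i x y h h' => hA i x.1 y.1 h h')
    intro K f hK hch
    let g : Option K → Cn C L := fun o => match o with
      | none => t0
      | some k => (f k).1
    have hgc : ∀ i, (g i).c = t0.c := by
      rintro (_ | k)
      · rfl
      · exact (f k).2.2.1
    have hgs : ∀ i j, ¬ T j → (g i).len j = 0 := by
      rintro (_ | k) j hj
      · exact hs0 j hj
      · exact (f k).2.2.2 j hj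
    have hgch : ∀ i k, g i ≤ g k ∨ g k ≤ g i := by
      rintro (_ | i) (_ | k)
      · left; exact le_rfl
      · right; exact (f k).2.1
      · left; exact (f i).2.1
      · exact hch i k
    have hgK : Cardinal.mk (Option K) < kap b := by
      have h0 : Cardinal.aleph0 ≤ kap b := (hk.reg b).aleph0_le
      rw [Cardinal.mk_option]
      exact Cardinal.add_lt_of_lt h0 hK (lt_of_lt_of_le Cardinal.one_lt_aleph0 h0)
    have hbit : ∀ i k j o, o < (g i).len j → o < (g k).len j →
        (g i).bit j o = (g k).bit j o := by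
      intro i k j o hi hk'
      rcases hgch i k with h | h
      · exact (h.2 j).2 o hk'
      · exact ((h.2 j).2 o hi).symm
    have hsup0 : ∀ j, ¬ T j → (⨆ i, (g i).len j) = 0 := by
      intro j hj
      have : (fun i => (g i).len j) = fun _ => 0 := funext fun i => hgs i j hj
      rw [this]
      simp
    have hle : ∀ i j, (g i).len j ≤ ⨆ i, (g i).len j := fun i j =>
      Ordinal.le_iSup (fun i => (g i).len j) i
    let t : Cn C L :=
      { c := t0.c
        len := fun j => ⨆ i, (g i).len j
        bit := fun j o => decide (∃ i, o < (g i).len j ∧ (g i).bit j o = true)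
        fin := hT.subset fun j hj => by
          by_contra h
          exact hj (hsup0 j h)
        lt := fun j => by
          by_cases h : T j
          · refine Ordinal.iSup_lt_ord ?_ fun i => (g i).lt j
            rw [(hk.reg j.1).cof_eq]
            exact lt_of_lt_of_le hgK (hk.mono _ _ h.1)
          · show (⨆ i, (g i).len j) < _
            rw [hsup0 j h]
            exact kap_pos _
        off := fun j o ho => by
          apply decide_eq_false
          rintro ⟨i, hi, -⟩
          exact absurd (lt_of_lt_of_le hi (hle i j)) (not_lt.2 ho)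
        sup := fun j hj => by
          have h : T j := by
            by_contra h
            exact hj (hsup0 j h)
          exact hL _ _ h.2 }
    have htle : ∀ i, t ≤ g i := by
      intro i
      refine ⟨le_of_eq (hgc i).symm, fun j => ⟨hle i j, fun o ho => ?_⟩⟩
      show decide (∃ i, o < (g i).len j ∧ (g i).bit j o = true) = (g i).bit j o
      cases hb : (g i).bit j o with
      | true => exact decide_eq_true ⟨i, ho, hb⟩
      | false =>
        apply decide_eq_false
        rintro ⟨k, hk1, hk2⟩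
        rw [hbit k i j o hk1 ho, hb] at hk2
        exact absurd hk2 (by decide)
    exact ⟨⟨t, htle none, rfl, fun j hj => hsup0 j hj⟩, fun i => htle (some i)⟩
  obtain ⟨x, hx⟩ := key
  refine ⟨x.1, x.2.1, x.2.2.1, x.2.2.2, fun i => ?_⟩
  rcases hx i with h | h
  · exact Or.inl h
  · exact Or.inr fun t' h1 h2 h3 => h ⟨t', h1.trans x.2.1, h2, h3⟩ h1

end Pool.Agent.W477.GM.Dist61
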